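import Pool.Agent.R56.ClawMain

/-! # Every claw-free cubic graph is (1,1,2,3)-packing colourable -/

namespace Pool.Agent.Results.MP_b5f1b3_co.ClawFreeCubic

open R56Pack

/-- Every finite claw-free cubic graph is `(1,1,2,3)`-packing colourable. -/
theorem result {V : Type*} [Finite V] (G : SimpleGraph V) (hcubic : Cubic G)
    (hclaw : ClawFree G) : PackingColorable G ![1, 1, 2, 3] :=
  claw_free_cubic_packing hcubic hclaw

end Pool.Agent.Results.MP_b5f1b3_co.ClawFreeCubic
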